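import Pool.Agent.Helper60.QL.Defs
import Pool.Agent.Helper75.TW.Num

/-!
# QL-S2 (helper65): from the cone to the square annulus, from frames of size `X` to a compact set of frames

`II_split`: `‖x + y‖^20 ≤ 2^19 (‖x‖^20 + ‖y‖^20)`; `II_neg`, `II_swap`: the symmetries `k ↦ -k`, `k ↦ (k₂, k₁)` of the frequencies; `II_sqa`: the square annulus is a union of four sets which are mapped into the cone
by the symmetries; `scale`: `r |fk f k| = |vf (r f) k|` and `f ↦ r f` has Jacobian `r⁴`; `cpt_of_cone`: Fubini.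
-/

open MeasureTheory Real Set Filter Topology

set_option autoImplicit false

namespace Pool.Agent.Helper60.QL

open Pool.Agent.Helper22.AE
open Pool.Agent.Helper92.GC (dt tp Tq uu tt arc dd sqa tp_cont)
open Pool.Agent.Helper75.TW
open Pool.Agent.Helper60.LT (Fr Tf xf yf df vf fr)
open Pool.Agent.Helper22.LP (fv fk fdet)

theorem sp_image (φ : ℤ × ℤ → ℤ × ℤ) (hadd : ∀ k l, φ (k + l) = φ k + φ l) (S : Finset (ℤ × ℤ)) (n : ℕ) :
    SP (S.image φ) n = (SP S n).image φ := by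
  induction n with
  | zero =>
    have h0 : φ 0 = 0 := by
      have := hadd 0 0
      rw [add_zero] at this
      exact (add_eq_left.1 this.symm)
    show ({0} : Finset (ℤ × ℤ)) = ({0} : Finset (ℤ × ℤ)).image φ
    rw [Finset.image_singleton, h0]
  | succ n ih =>
    show ((SP (S.image φ) n) ×ˢ (S.image φ)).image (fun k => k.1 + k.2) = ((SP S n ×ˢ S).image (fun k => k.1 + k.2)).image φ
    rw [ih]
    ext l
    simp only [Finset.mem_image, Finset.mem_product]
    constructor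
    · rintro ⟨⟨x, y⟩, ⟨⟨x', hx, rfl⟩, ⟨y', hy, rfl⟩⟩, rfl⟩
      exact ⟨x' + y', ⟨(x', y'), ⟨hx, hy⟩, rfl⟩, by rw [hadd]⟩
    · rintro ⟨w, ⟨⟨x, y⟩, ⟨hx, hy⟩, rfl⟩, rfl⟩
      exact ⟨(φ x, φ y), ⟨⟨x, hx, rfl⟩, ⟨y, hy, rfl⟩⟩, by rw [hadd]⟩

theorem cf_image (φ : ℤ × ℤ → ℤ × ℤ) (hadd : ∀ k l, φ (k + l) = φ k + φ l) (hinj : Function.Injective φ) (S : Finset (ℤ × ℤ))
    (a : ℤ × ℤ → ℂ) (n : ℕ) : ∀ l, cf (S.image φ) a n (φ l) = cf S (fun k => a (φ k)) n l := by
  induction n with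
  | zero => exact fun l => rfl
  | succ n ih =>
    intro l
    unfold cf
    rw [Finset.sum_filter, Finset.sum_filter, sp_image φ hadd]
    rw [Finset.sum_product, Finset.sum_product]
    rw [Finset.sum_image (fun x _ y _ h => hinj h)]
    refine Finset.sum_congr rfl fun x _ => ?_
    rw [Finset.sum_image (fun x _ y _ h => hinj h)]
    refine Finset.sum_congr rfl fun y _ => ?_
    simp only
    rw [ih, ← hadd]
    simp only [hinj.eq_iff]

theorem m20_image (φ : ℤ × ℤ → ℤ × ℤ) (hadd : ∀ k l, φ (k + l) = φ k + φ l) (hinj : Function.Injective φ) (S : Finset (ℤ × ℤ))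
    (a : ℤ × ℤ → ℂ) : m20 (S.image φ) a = m20 S (fun k => a (φ k)) := by
  rw [m20_eq, m20_eq, sp_image φ hadd, Finset.sum_image (fun x _ y _ h => hinj h)]
  refine Finset.sum_congr rfl fun l _ => ?_
  rw [cf_image φ hadd hinj]

private theorem intb65 {f : ℝ × ℝ → ℝ} (hf : Continuous f) : Integrable f (volume.restrict Tq) := by
  have h1 : IsCompact Tq := isCompact_Icc.prod isCompact_Icc
  exact hf.continuousOn.integrableOn_compact h1

theorem m20_split (S : Finset (ℤ × ℤ)) (p : ℤ × ℤ → Prop) [DecidablePred p] (a : ℤ × ℤ → ℂ) :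
    m20 S a ≤ 2 ^ 19 * (m20 (S.filter p) a + m20 (S.filter fun k => ¬ p k) a) := by
  have h1 : ∀ c, ‖tp S a c‖ ^ 20 ≤ 2 ^ 19 * (‖tp (S.filter p) a c‖ ^ 20 + ‖tp (S.filter fun k => ¬ p k) a c‖ ^ 20) := by
    intro c
    have h2 : tp S a c = tp (S.filter p) a c + tp (S.filter fun k => ¬ p k) a c := by
      unfold tp
      exact (Finset.sum_filter_add_sum_filter_not S p _).symm
    rw [h2]
    exact (pow_le_pow_left₀ (norm_nonneg _) (norm_add_le _ _) 20).trans (add_pow_le (norm_nonneg _) (norm_nonneg _) 20)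
  have hc : ∀ S : Finset (ℤ × ℤ), Continuous fun c => ‖tp S a c‖ ^ 20 := fun S => (tp_cont S a).norm.pow 20
  unfold m20
  rw [← integral_add (intb65 (hc _)) (intb65 (hc _)), ← integral_const_mul]
  exact integral_mono (intb65 (hc _)) (intb65 (continuous_const.mul ((hc _).add (hc _)))) h1

theorem nm_cont : Continuous nm := by
  unfold nm
  fun_prop

theorem vf_cont (k : ℤ × ℤ) : Continuous fun f : Fr => vf f k := by
  unfold vf
  fun_prop

theorem ff_meas (S : Finset (ℤ × ℤ)) : Measurable (ff S) := by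
  unfold ff
  refine ENNReal.measurable_ofReal.comp (Continuous.measurable ?_)
  exact m20_cont_coef S (fun (f : Fr) k => ee (nm (vf f k))) fun k _ => ee_cont.comp (nm_cont.comp (vf_cont k))

theorem II_split (B X : ℝ) (S : Finset (ℤ × ℤ)) (p : ℤ × ℤ → Prop) [DecidablePred p] :
    II B X S ≤ ENNReal.ofReal (2 ^ 19) * (II B X (S.filter p) + II B X (S.filter fun k => ¬ p k)) := by
  unfold II
  have hm : Measurable fun f => ff (S.filter p) f + ff (S.filter fun k => ¬ p k) f := (ff_meas _).add (ff_meas _)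
  rw [← lintegral_add_left (ff_meas _), ← lintegral_const_mul _ hm]
  refine lintegral_mono fun f => ?_
  unfold ff
  rw [← ENNReal.ofReal_add (m20_nonneg _ _) (m20_nonneg _ _), ← ENNReal.ofReal_mul (by norm_num)]
  exact ENNReal.ofReal_le_ofReal (m20_split S p _)

theorem II_neg (B X : ℝ) (S : Finset (ℤ × ℤ)) : II B X (S.image fun k => -k) = II B X S := by
  unfold II ff
  refine lintegral_congr fun f => ?_
  rw [m20_image (fun k => -k) (fun k l => neg_add k l) neg_injective]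
  congr 2
  funext k
  congr 1
  unfold nm vf
  congr 1
  simp only [Prod.fst_neg, Prod.snd_neg]
  push_cast
  ring

theorem swap_UB (B X : ℝ) (f : Fr) : Prod.swap f ∈ UB B X ↔ f ∈ UB B X := by
  have h : |df (Prod.swap f)| = |df f| := by
    have e : df (Prod.swap f) = -df f := by
      unfold df
      simp only [Prod.fst_swap, Prod.snd_swap]
      ring
    rw [e, abs_neg]
  unfold UB
  simp only [mem_ofPred_eq]
  rw [h]
  simp only [Prod.fst_swap, Prod.snd_swap]
  tauto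

theorem UB_closed (B X : ℝ) : IsClosed (UB B X) := by
  have h11 : Continuous fun f : Fr => f.1.1 := by fun_prop
  have h12 : Continuous fun f : Fr => f.1.2 := by fun_prop
  have h21 : Continuous fun f : Fr => f.2.1 := by fun_prop
  have h22 : Continuous fun f : Fr => f.2.2 := by fun_prop
  have hd : Continuous fun f : Fr => df f := by
    unfold df
    fun_prop
  have e : UB B X = {f : Fr | |f.1.1| ≤ B * X} ∩ ({f : Fr | |f.1.2| ≤ B * X} ∩ ({f : Fr | |f.2.1| ≤ B * X} ∩ ({f : Fr | |f.2.2| ≤ B * X} ∩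
      {f : Fr | X ^ 2 ≤ B * |df f|}))) := by
    ext f
    rfl
  rw [e]
  exact (isClosed_le h11.abs continuous_const).inter ((isClosed_le h12.abs continuous_const).inter ((isClosed_le h21.abs continuous_const).inter
    ((isClosed_le h22.abs continuous_const).inter (isClosed_le continuous_const (continuous_const.mul hd.abs)))))

theorem II_swap (B X : ℝ) (S : Finset (ℤ × ℤ)) : II B X (S.image Prod.swap) = II B X S := by
  have hinj : Function.Injective (Prod.swap : ℤ × ℤ → ℤ × ℤ) := Prod.swap_injective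
  have h1 : ∀ f : Fr, ff (S.image Prod.swap) f = ff S (Prod.swap f) := by
    intro f
    unfold ff
    rw [m20_image Prod.swap (fun k l => by simp [Prod.swap]) hinj]
    congr 2
    funext k
    congr 1
    unfold nm vf
    congr 1
    simp only [Prod.fst_swap, Prod.snd_swap]
    ring
  have hm : MeasurableSet (UB B X) := (UB_closed B X).measurableSet
  unfold II
  rw [← lintegral_indicator hm, ← lintegral_indicator hm]
  have h2 : ∀ f : Fr, (UB B X).indicator (ff (S.image Prod.swap)) f = (UB B X).indicator (ff S) (Prod.swap f) := by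
    intro f
    by_cases hf : f ∈ UB B X
    · rw [indicator_of_mem hf, indicator_of_mem ((swap_UB B X f).2 hf), h1]
    · rw [indicator_of_notMem hf, indicator_of_notMem (fun h => hf ((swap_UB B X f).1 h))]
  rw [lintegral_congr h2]
  have h3 : MeasurePreserving (Prod.swap : Fr → Fr) (volume : Measure Fr) (volume : Measure Fr) := Measure.measurePreserving_swap
  exact h3.lintegral_comp ((ff_meas S).indicator hm)

/-- the bound of the cone gives the bound of the square annulus -/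
theorem II_sqa {B X : ℝ} {N : ℕ} (hN : 1 ≤ N) {Z : ENNReal} (h : ∀ S : Finset (ℤ × ℤ), Cone N 2 S → II B X S ≤ Z) :
    II B X (sqa N) ≤ ENNReal.ofReal (2 ^ 59) * Z := by
  classical
  obtain ⟨S, hS⟩ : ∃ S : Finset (ℤ × ℤ), S = sqa N := ⟨_, rfl⟩
  have hmem : ∀ k ∈ S, ((N : ℤ) ≤ |k.1| ∨ (N : ℤ) ≤ |k.2|) ∧ |k.1| < 2 * N ∧ |k.2| < 2 * N := by
    intro k hk
    rw [hS] at hk
    unfold sqa at hk
    exact (Finset.mem_filter.1 hk).2
  have hN0 : (0 : ℝ) < N := by exact_mod_cast hN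
  -- the cone
  have hcone : ∀ T : Finset (ℤ × ℤ), (∀ k ∈ T, (N : ℤ) ≤ k.1 ∧ k.1 < 2 * N ∧ |k.2| ≤ k.1) → Cone N 2 T := by
    intro T hT k hk
    obtain ⟨h1, h2, h3⟩ := hT k hk
    have h1' : (N : ℝ) ≤ k.1 := by exact_mod_cast h1
    have h2' : (k.1 : ℝ) < 2 * N := by exact_mod_cast h2
    have h3' : |(k.2 : ℝ)| ≤ k.1 := by exact_mod_cast h3
    refine ⟨by linarith, h2'.le, by linarith⟩
  rw [← hS]
  -- the three splittings
  have s1 := II_split B X S (fun k => |k.2| ≤ |k.1|)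
  have s2 := II_split B X (S.filter fun k => |k.2| ≤ |k.1|) (fun k => 0 ≤ k.1)
  have s3 := II_split B X (S.filter fun k => ¬ |k.2| ≤ |k.1|) (fun k => 0 ≤ k.2)
  have b1 : II B X ((S.filter fun k => |k.2| ≤ |k.1|).filter fun k => 0 ≤ k.1) ≤ Z := by
    refine h _ (hcone _ fun k hk => ?_)
    rw [Finset.mem_filter, Finset.mem_filter] at hk
    obtain ⟨⟨h1, h2⟩, h3⟩ := hk
    obtain ⟨h4, h5, h6⟩ := hmem k h1
    rw [abs_of_nonneg h3] at h2 h4 h5
    refine ⟨?_, h5, h2⟩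
    rcases h4 with h4 | h4
    · exact h4
    · exact h4.trans h2
  have b2 : II B X ((S.filter fun k => |k.2| ≤ |k.1|).filter fun k => ¬ 0 ≤ k.1) ≤ Z := by
    rw [← II_neg]
    refine h _ (hcone _ fun k hk => ?_)
    rw [Finset.mem_image] at hk
    obtain ⟨l, hl, rfl⟩ := hk
    rw [Finset.mem_filter, Finset.mem_filter] at hl
    obtain ⟨⟨h1, h2⟩, h3⟩ := hl
    obtain ⟨h4, h5, h6⟩ := hmem l h1
    push Not at h3
    rw [abs_of_neg h3] at h2 h4 h5
    simp only [Prod.fst_neg, Prod.snd_neg, abs_neg]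
    refine ⟨?_, h5, h2⟩
    rcases h4 with h4 | h4
    · exact h4
    · exact h4.trans h2
  have b3 : II B X ((S.filter fun k => ¬ |k.2| ≤ |k.1|).filter fun k => 0 ≤ k.2) ≤ Z := by
    rw [← II_swap]
    refine h _ (hcone _ fun k hk => ?_)
    rw [Finset.mem_image] at hk
    obtain ⟨l, hl, rfl⟩ := hk
    rw [Finset.mem_filter, Finset.mem_filter] at hl
    obtain ⟨⟨h1, h2⟩, h3⟩ := hl
    obtain ⟨h4, h5, h6⟩ := hmem l h1
    push Not at h2
    rw [abs_of_nonneg h3] at h2 h4 h6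
    simp only [Prod.fst_swap, Prod.snd_swap]
    refine ⟨?_, h6, h2.le⟩
    rcases h4 with h4 | h4
    · exact h4.trans h2.le
    · exact h4
  have b4 : II B X ((S.filter fun k => ¬ |k.2| ≤ |k.1|).filter fun k => ¬ 0 ≤ k.2) ≤ Z := by
    rw [← II_swap, ← II_neg]
    refine h _ (hcone _ fun k hk => ?_)
    rw [Finset.mem_image] at hk
    obtain ⟨l', hl', rfl⟩ := hk
    rw [Finset.mem_image] at hl'
    obtain ⟨l, hl, rfl⟩ := hl'
    rw [Finset.mem_filter, Finset.mem_filter] at hl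
    obtain ⟨⟨h1, h2⟩, h3⟩ := hl
    obtain ⟨h4, h5, h6⟩ := hmem l h1
    push Not at h2 h3
    rw [abs_of_neg h3] at h2 h4 h6
    simp only [Prod.fst_neg, Prod.snd_neg, abs_neg, Prod.fst_swap, Prod.snd_swap]
    refine ⟨?_, h6, h2.le⟩
    rcases h4 with h4 | h4
    · exact h4.trans h2.le
    · exact h4
  have e : ENNReal.ofReal (2 ^ 19) = 2 ^ 19 := by
    rw [ENNReal.ofReal_pow (by norm_num), ENNReal.ofReal_ofNat]
  have e' : ENNReal.ofReal (2 ^ 59) = 2 ^ 59 := by
    rw [ENNReal.ofReal_pow (by norm_num), ENNReal.ofReal_ofNat]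
  rw [e] at s1 s2 s3
  rw [e']
  calc II B X S ≤ 2 ^ 19 * (II B X (S.filter fun k => |k.2| ≤ |k.1|) + II B X (S.filter fun k => ¬ |k.2| ≤ |k.1|)) := s1
    _ ≤ 2 ^ 19 * (2 ^ 19 * (Z + Z) + 2 ^ 19 * (Z + Z)) := by
        refine mul_le_mul_right (add_le_add ?_ ?_) _
        · exact s2.trans (mul_le_mul_right (add_le_add b1 b2) _)
        · exact s3.trans (mul_le_mul_right (add_le_add b3 b4) _)
    _ = 2 ^ 40 * Z := by ring
    _ ≤ 2 ^ 59 * Z := by
        gcongr
        · norm_num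
        · norm_num

theorem nm_smul {r : ℝ} (hr : 0 ≤ r) (f : Fr) (k : ℤ × ℤ) : r * nm (fk f k) = nm (vf (r • f) k) := by
  unfold nm fk fv vf
  simp only [Prod.smul_fst, Prod.smul_snd, smul_eq_mul]
  have e : (k.1 * (r * f.1.1) + k.2 * (r * f.2.1)) ^ 2 + (k.1 * (r * f.1.2) + k.2 * (r * f.2.2)) ^ 2 =
      r ^ 2 * (((k.1 : ℝ) * f.1.1 + k.2 * f.2.1) ^ 2 + (k.1 * f.1.2 + k.2 * f.2.2) ^ 2) := by ring
  rw [e, sqrt_mul (sq_nonneg r), sqrt_sq hr]

/-- the scaled frames of a compact set -/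
theorem scale {B X r : ℝ} (hr : 0 < r) {U : Set Fr} (hU : ∀ f ∈ U, r • f ∈ UB B X) (S : Finset (ℤ × ℤ)) :
    ∫⁻ f in U, ff S (r • f) ≤ ENNReal.ofReal ((r ^ 4)⁻¹) * II B X S := by
  have hm : MeasurableSet (UB B X) := (UB_closed B X).measurableSet
  have h1 : ∫⁻ f in U, ff S (r • f) ≤ ∫⁻ f : Fr, (UB B X).indicator (ff S) (r • f) := by
    calc ∫⁻ f in U, ff S (r • f) ≤ ∫⁻ f in {f : Fr | r • f ∈ UB B X}, ff S (r • f) := lintegral_mono_set hU
      _ = ∫⁻ f : Fr, ({f : Fr | r • f ∈ UB B X}).indicator (fun f => ff S (r • f)) f := by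
          rw [lintegral_indicator]
          exact (measurable_const_smul r) hm
      _ = ∫⁻ f : Fr, (UB B X).indicator (ff S) (r • f) := by
          refine lintegral_congr fun f => ?_
          by_cases hf : r • f ∈ UB B X
          · rw [indicator_of_mem hf, indicator_of_mem (show f ∈ {f : Fr | r • f ∈ UB B X} from hf)]
          · rw [indicator_of_notMem hf, indicator_of_notMem (show f ∉ {f : Fr | r • f ∈ UB B X} from hf)]
  refine h1.trans (le_of_eq ?_)
  have h2 : Measure.map (fun f : Fr => r • f) (volume : Measure Fr) = ENNReal.ofReal |(r ^ Module.finrank ℝ Fr)⁻¹| • (volume : Measure Fr) :=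
    Measure.map_addHaar_smul volume hr.ne'
  have h3 : Module.finrank ℝ Fr = 4 := by
    simp [Fr]
  rw [h3, abs_of_pos (by positivity)] at h2
  have hg : Measurable ((UB B X).indicator (ff S)) := (ff_meas S).indicator hm
  calc ∫⁻ f : Fr, (UB B X).indicator (ff S) (r • f) = ∫⁻ g, (UB B X).indicator (ff S) g ∂(Measure.map (fun f : Fr => r • f) (volume : Measure Fr)) :=
        (lintegral_map hg (measurable_const_smul r)).symm
    _ = ENNReal.ofReal ((r ^ 4)⁻¹) * II B X S := by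
        rw [h2, lintegral_smul_measure, smul_eq_mul, lintegral_indicator hm]
        rfl

/-- a compact set of nondegenerate frames, scaled -/
theorem cpt_UB {U : Set Fr} (hU : IsCompact U) (hU0 : ∀ f ∈ U, 0 < fdet f) :
    ∃ B : ℝ, 1 ≤ B ∧ ∀ X : ℝ, 1 ≤ X → ∀ r ∈ Icc (X / 4) (8 * X), ∀ f ∈ U, r • f ∈ UB B X := by
  rcases U.eq_empty_or_nonempty with h | hne
  · exact ⟨1, le_rfl, fun X _ r _ f hf => absurd hf (by rw [h]; exact notMem_empty f)⟩
  obtain ⟨M, hM⟩ := hU.isBounded.exists_norm_le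
  have hd : Continuous fun f : Fr => fdet f := by
    unfold fdet
    fun_prop
  obtain ⟨f₀, hf₀, hmin⟩ := hU.exists_isMinOn hne hd.continuousOn
  have hδ := hU0 f₀ hf₀
  refine ⟨1 + 8 * |M| + 16 / fdet f₀, ?_, ?_⟩
  · have h1 : 0 ≤ |M| := abs_nonneg M
    have h2 : 0 ≤ 16 / fdet f₀ := by positivity
    linarith
  intro X hX r hr f hf
  have hX0 : 0 < X := by linarith
  have hr0 : 0 < r := by linarith [hr.1]
  have hn := hM f hf
  have n1 : ‖f.1‖ ≤ M := (norm_fst_le f).trans hn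
  have n2 : ‖f.2‖ ≤ M := (norm_snd_le f).trans hn
  have n11 : |f.1.1| ≤ M := (norm_fst_le f.1).trans n1
  have n12 : |f.1.2| ≤ M := (norm_snd_le f.1).trans n1
  have n21 : |f.2.1| ≤ M := (norm_fst_le f.2).trans n2
  have n22 : |f.2.2| ≤ M := (norm_snd_le f.2).trans n2
  have hb : ∀ x : ℝ, |x| ≤ M → |r * x| ≤ (1 + 8 * |M| + 16 / fdet f₀) * X := by
    intro x hx
    rw [abs_mul, abs_of_pos hr0]
    have h1 : |x| ≤ |M| := hx.trans (le_abs_self M)
    have h2 : r * |x| ≤ 8 * X * |M| := mul_le_mul hr.2 h1 (abs_nonneg x) (by linarith)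
    have h3 : 0 ≤ (1 + 16 / fdet f₀) * X := by positivity
    linarith
  have hdet : fdet f₀ ≤ fdet f := hmin hf
  refine ⟨hb _ n11, hb _ n12, hb _ n21, hb _ n22, ?_⟩
  have e : df (r • f) = r ^ 2 * fdet f := by
    unfold df fdet
    simp only [Prod.smul_fst, Prod.smul_snd, smul_eq_mul]
    ring
  have hf0 : 0 < fdet f := hU0 f hf
  rw [e, abs_of_pos (show 0 < r ^ 2 * fdet f by positivity)]
  have h1 : X ^ 2 / 16 ≤ r ^ 2 := by
    have := hr.1
    nlinarith
  have h2 : X ^ 2 / 16 * fdet f₀ ≤ r ^ 2 * fdet f := mul_le_mul h1 hdet hδ.le (by positivity)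
  calc X ^ 2 = 16 / fdet f₀ * (X ^ 2 / 16 * fdet f₀) := by
        field_simp
    _ ≤ 16 / fdet f₀ * (r ^ 2 * fdet f) := mul_le_mul_of_nonneg_left h2 (by positivity)
    _ ≤ (1 + 8 * |M| + 16 / fdet f₀) * (r ^ 2 * fdet f) := by
        refine mul_le_mul_of_nonneg_right ?_ (by positivity)
        have := abs_nonneg M
        linarith

private theorem bochner65 {F : Fr → ℝ → ℝ} (hF : Continuous (fun q : Fr × ℝ => F q.1 q.2)) (h0 : ∀ f r, 0 ≤ F f r) (U : Set Fr)
    (a b Z : ℝ) (hZ : 0 ≤ Z) (h : ∫⁻ f in U, ∫⁻ r in Icc a b, ENNReal.ofReal (F f r) ≤ ENNReal.ofReal Z) :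
    ∫ f in U, ∫ r in Icc a b, F f r ≤ Z := by
  have hin : Continuous (fun f : Fr => ∫ r in Icc a b, F f r) :=
    continuous_parametric_integral_of_continuous hF isCompact_Icc
  have h2 : ∀ f : Fr, ENNReal.ofReal (∫ r in Icc a b, F f r) = ∫⁻ r in Icc a b, ENNReal.ofReal (F f r) := by
    intro f
    have hcr : Continuous (fun r : ℝ => F f r) := hF.comp (Continuous.prodMk continuous_const continuous_id)
    exact ofReal_integral_eq_lintegral_ofReal (hcr.continuousOn.integrableOn_compact isCompact_Icc)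
      (Eventually.of_forall fun r => h0 f r)
  rw [integral_eq_lintegral_of_nonneg_ae (Eventually.of_forall fun f =>
    setIntegral_nonneg measurableSet_Icc fun r _ => h0 f r) hin.aestronglyMeasurable]
  refine ENNReal.toReal_le_of_le_ofReal hZ ?_
  rw [lintegral_congr fun f => h2 f]
  exact h

/-- the bound of the twentieth moment -/
noncomputable def F20q (X N : ℝ) : ℝ := X * (N ^ 20 + N ^ 34 * (X * N) ^ (-(7 / 4) : ℝ))

theorem cpt_of_cone (hc : ∀ ε B : ℝ, 0 < ε → 1 ≤ B → ∃ C : ℝ, 1 ≤ C ∧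
    ∀ (X H : ℝ) (S : Finset (ℤ × ℤ)), 1 ≤ X → 1 ≤ H → H ^ 3 ≤ X → Cone H 2 S → II B X S ≤ ENNReal.ofReal (C * X ^ (4 + ε) * (H ^ 20 + H ^ 34 * (X * H) ^ (-(7 / 4) : ℝ)))) :
    MomF J20 F20q (fun h => h = nm) 0 (1 / 3) := by
  intro ε hε U hU hU0
  obtain ⟨B, hB, hUB⟩ := cpt_UB hU hU0
  obtain ⟨C, hC, hmom⟩ := hc ε B hε hB
  refine ⟨2 ^ 11 * (2 ^ 59 * C), ?_⟩
  rintro h rfl X hX n - hn
  have hX0 : 0 < X := by linarith
  obtain ⟨N, hN⟩ : ∃ N : ℕ, N = 2 ^ n := ⟨_, rfl⟩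
  have hN1 : 1 ≤ N := by
    rw [hN]
    exact Nat.one_le_two_pow
  have hNr : ((2 : ℝ) ^ n) = N := by
    rw [hN]
    push_cast
    rfl
  rw [hNr] at hn ⊢
  have hN1r : (1 : ℝ) ≤ N := by exact_mod_cast hN1
  have hN3 : (N : ℝ) ^ 3 ≤ X := by
    calc (N : ℝ) ^ 3 ≤ (X ^ (1 / 3 : ℝ)) ^ 3 := pow_le_pow_left₀ (by linarith) hn 3
      _ = X := by
          rw [← rpow_natCast, ← rpow_mul hX0.le]
          norm_num
  obtain ⟨W, hW⟩ : ∃ W : ℝ, W = (N : ℝ) ^ 20 + (N : ℝ) ^ 34 * (X * N) ^ (-(7 / 4) : ℝ) := ⟨_, rfl⟩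
  have hW0 : 0 ≤ W := by
    rw [hW]
    positivity
  -- the square annulus
  have hsq : II B X (sqa N) ≤ ENNReal.ofReal (2 ^ 59) * ENNReal.ofReal (C * X ^ (4 + ε) * W) := by
    refine II_sqa hN1 fun S hS => ?_
    rw [hW]
    exact hmom X N S hX hN1r hN3 hS
  rw [← ENNReal.ofReal_mul (by positivity)] at hsq
  -- the function of frame and radius
  obtain ⟨G, hG⟩ : ∃ G : Fr → ℝ → ℝ, G = fun f r => m20 (sqa N) (fun k => ee (r * nm (fk f k))) := ⟨_, rfl⟩
  have hGc : Continuous fun q : Fr × ℝ => G q.1 q.2 := by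
    rw [hG]
    refine m20_cont_coef (sqa N) (fun (q : Fr × ℝ) k => ee (q.2 * nm (fk q.1 k))) fun k _ => ?_
    exact ee_cont.comp (continuous_snd.mul (nm_cont.comp ((vf_cont k).comp continuous_fst)))
  have hG0 : ∀ f r, 0 ≤ G f r := by
    intro f r
    rw [hG]
    exact m20_nonneg _ _
  have hGr : ∀ r : ℝ, 0 ≤ r → ∀ f : Fr, ENNReal.ofReal (G f r) = ff (sqa N) (r • f) := by
    intro r hr f
    rw [hG]
    unfold ff
    simp only [nm_smul hr]
  have hgoal : ∫ f in U, J20 f nm X N = ∫ f in U, ∫ r in Icc (X / 4) (8 * X), G f r := by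
    rw [hG]
    rfl
  have hZ0 : 0 ≤ 2 ^ 11 * (2 ^ 59 * C) * (X ^ ε * F20q X N) := by
    have : F20q X N = X * W := by
      rw [hW]
      rfl
    rw [this]
    positivity
  have hcast : ((2 : ℕ) ^ n) = N := hN.symm
  rw [← hN] 
  rw [hgoal]
  refine bochner65 hGc hG0 U _ _ _ hZ0 ?_
  have hswap : ∫⁻ f in U, ∫⁻ r in Icc (X / 4) (8 * X), ENNReal.ofReal (G f r) = ∫⁻ r in Icc (X / 4) (8 * X), ∫⁻ f in U, ENNReal.ofReal (G f r) := by
    refine lintegral_lintegral_swap ?_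
    exact (ENNReal.measurable_ofReal.comp hGc.measurable).aemeasurable
  rw [hswap]
  have hin : ∀ r ∈ Icc (X / 4) (8 * X), ∫⁻ f in U, ENNReal.ofReal (G f r) ≤ ENNReal.ofReal (((X / 4) ^ 4)⁻¹ * (2 ^ 59 * (C * X ^ (4 + ε) * W))) := by
    intro r hr
    have hr0 : 0 < r := by linarith [hr.1]
    rw [lintegral_congr fun f => hGr r hr0.le f]
    refine (scale hr0 (hUB X hX r hr) (sqa N)).trans ?_
    rw [ENNReal.ofReal_mul (by positivity)]
    refine mul_le_mul' (ENNReal.ofReal_le_ofReal ?_) hsq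
    have h1 : (X / 4) ^ 4 ≤ r ^ 4 := pow_le_pow_left₀ (by positivity) hr.1 4
    exact inv_anti₀ (by positivity) h1
  calc ∫⁻ r in Icc (X / 4) (8 * X), ∫⁻ f in U, ENNReal.ofReal (G f r)
      ≤ ∫⁻ _r in Icc (X / 4) (8 * X), ENNReal.ofReal (((X / 4) ^ 4)⁻¹ * (2 ^ 59 * (C * X ^ (4 + ε) * W))) := setLIntegral_mono' measurableSet_Icc hin
    _ = ENNReal.ofReal (((X / 4) ^ 4)⁻¹ * (2 ^ 59 * (C * X ^ (4 + ε) * W))) * ENNReal.ofReal (8 * X - X / 4) := by
        rw [setLIntegral_const, Real.volume_Icc]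
    _ = ENNReal.ofReal (((X / 4) ^ 4)⁻¹ * (2 ^ 59 * (C * X ^ (4 + ε) * W)) * (8 * X - X / 4)) := by
        rw [← ENNReal.ofReal_mul (by positivity)]
    _ ≤ ENNReal.ofReal (2 ^ 11 * (2 ^ 59 * C) * (X ^ ε * F20q X N)) := by
        refine ENNReal.ofReal_le_ofReal ?_
        have e1 : X ^ (4 + ε) = X ^ 4 * X ^ ε := by
          rw [rpow_add hX0, show (4 : ℝ) = ((4 : ℕ) : ℝ) by norm_num, rpow_natCast]
        have e2 : F20q X N = X * W := by
          rw [hW]
          rfl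
        have e3 : ((X / 4) ^ 4)⁻¹ * (2 ^ 59 * (C * X ^ (4 + ε) * W)) * (8 * X - X / 4) = 1984 * (2 ^ 59 * C * (X ^ ε * (X * W))) := by
          rw [e1]
          field_simp
          ring
        rw [e3, e2]
        have h1 : 0 ≤ 2 ^ 59 * C * (X ^ ε * (X * W)) := by positivity
        nlinarith

end Pool.Agent.Helper60.QL
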