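import Pool.Agent.Helper49.QL.S2m
import Pool.Agent.Helper78.QL.S1
import Pool.Agent.Helper79.QL.M6
import Pool.Agent.Helper82.QG.Hyp
import Pool.Agent.Helper65.QL.S2

/-!
# QL-S2 (helper65): the twentieth moment for the disc, without hypothesis
-/

open MeasureTheory Real Set Filter Topology

set_option autoImplicit false

namespace Pool.Agent.Helper60.QL

open Pool.Agent.Helper22.AE
open Pool.Agent.Helper92.GC (dt tp Tq uu tt arc dd sqa)
open Pool.Agent.Helper75.TW (J20 MomF)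

theorem mom_cone {ε B : ℝ} (hε : 0 < ε) (hB : 1 ≤ B) : ∃ C : ℝ, 1 ≤ C ∧
    ∀ (X H : ℝ) (S : Finset (ℤ × ℤ)), 1 ≤ X → 1 ≤ H → H ^ 3 ≤ X → Cone H 2 S → II B X S ≤ ENNReal.ofReal (C * X ^ (4 + ε) * (H ^ 20 + H ^ 34 * (X * H) ^ (-(7 / 4) : ℝ))) :=
  mom_cone_of hε hB (fun _ hη => iter hη (by norm_num) hB (dec20_all (by norm_num))) (fun _ _ h1 h2 => m6_frames h1 (by norm_num) h2) m20_m6

/-- the twentieth moment of the disc for compact sets of frames -/
theorem mom_disc : MomF J20 F20q (fun h => h = nm) 0 (1 / 3) := cpt_of_cone fun _ _ hε hB => mom_cone hε hB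

end Pool.Agent.Helper60.QL
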